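import Pool.Agent.Y302.DDP.Local

/-!
# Local diametral duality for norming dual pairs

Full answer (yes) to Q1 of MP_914893_an, in a local form and for all pairs of normed spaces in
norming duality (`X` and `X*`, `X*` and `X**`, a space and a norming subspace of its dual, a complex
space and its dual with the real part of the pairing, ...).
-/

set_option autoImplicit false

namespace Pool.Agent.Results.MP_914893_an.LocalDuality

open Pool.Agent.Y302.DDP

universe u v w

/-- The diametral diameter two property (DD2P) of a real normed space `X`: for every weakly open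
set `U`, every norm-one point `x` of `U` and every `ε > 0` there is a point `y` of the closed unit
ball in `U` with `‖x - y‖ > 2 - ε`. -/
def DD2P (X : Type u) [NormedAddCommGroup X] [NormedSpace ℝ X] : Prop :=
  ∀ U : Set (WeakSpace ℝ X), IsOpen U → ∀ x : X, ‖x‖ = 1 → toWeakSpace ℝ X x ∈ U →
    ∀ ε : ℝ, 0 < ε → ∃ y : X, ‖y‖ ≤ 1 ∧ toWeakSpace ℝ X y ∈ U ∧ 2 - ε < ‖x - y‖

/-- The weak-star diametral diameter two property of the dual of `X`: the same in the dual unit
ball with weak-star open sets. -/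
def WStarDD2P (X : Type u) [NormedAddCommGroup X] [NormedSpace ℝ X] : Prop :=
  ∀ U : Set (WeakDual ℝ X), IsOpen U → ∀ f : StrongDual ℝ X, ‖f‖ = 1 →
    StrongDual.toWeakDual f ∈ U →
    ∀ ε : ℝ, 0 < ε → ∃ g : StrongDual ℝ X, ‖g‖ ≤ 1 ∧ StrongDual.toWeakDual g ∈ U ∧
      2 - ε < ‖f - g‖

section Pair

variable {E : Type v} {F : Type w} [NormedAddCommGroup E] [NormedSpace ℝ E]
  [NormedAddCommGroup F] [NormedSpace ℝ F]

/-- The bilinear form `B` is a norming duality of the normed spaces `E` and `F`: the norm of each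
space is the supremum of `B` over the unit ball of the other one. -/
structure Norming (B : E →ₗ[ℝ] F →ₗ[ℝ] ℝ) : Prop where
  bound : ∀ x f, B x f ≤ ‖x‖ * ‖f‖
  left : ∀ x c, c < ‖x‖ → ∃ f, ‖f‖ ≤ 1 ∧ c < B x f
  right : ∀ f c, c < ‖f‖ → ∃ x, ‖x‖ ≤ 1 ∧ c < B x f

/-- `x` is a `Δ`-point of the closed unit ball of `E` for the slices given by `F`: each slice
`{y : ‖y‖ ≤ 1, B y f > c}` which contains `x` has points at distance almost `2` from `x`. -/
def DeltaPt (B : E →ₗ[ℝ] F →ₗ[ℝ] ℝ) (x : E) : Prop :=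
  ∀ (f : F) (c : ℝ), c < B x f → ∀ ε : ℝ, 0 < ε →
    ∃ y : E, ‖y‖ ≤ 1 ∧ c < B y f ∧ 2 - ε < ‖x - y‖

/-- `x` is a super `Δ`-point of the closed unit ball of `E` for the topology `σ(E, F)`: each
`σ(E, F)`-open set `U` which contains `x` has points of the closed unit ball at distance almost `2`
from `x`. -/
def SuperDeltaPt (B : E →ₗ[ℝ] F →ₗ[ℝ] ℝ) (x : E) : Prop :=
  ∀ U : Set (WeakBilin B), IsOpen U → (x : WeakBilin B) ∈ U → ∀ ε : ℝ, 0 < ε →
    ∃ y : E, ‖y‖ ≤ 1 ∧ (y : WeakBilin B) ∈ U ∧ 2 - ε < ‖x - y‖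

lemma Norming.flip {B : E →ₗ[ℝ] F →ₗ[ℝ] ℝ} (h : Norming B) : Norming B.flip :=
  ⟨fun f x => by rw [mul_comm]; exact h.bound x f, h.right, h.left⟩

lemma SuperDeltaPt.delta {B : E →ₗ[ℝ] F →ₗ[ℝ] ℝ} {x : E} (h : SuperDeltaPt B x) :
    DeltaPt B x := by
  intro f c hc ε hε
  have hopen : IsOpen {z : WeakBilin B | c < B z f} :=
    isOpen_lt continuous_const (WeakBilin.eval_continuous B f)
  exact h _ hopen hc ε hε

lemma DeltaPt.step {B : E →ₗ[ℝ] F →ₗ[ℝ] ℝ} {x : E} (h : DeltaPt B x) (f : F) (τ : ℝ)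
    (hτ : 0 < τ) (ε : ℝ) (hε : 0 < ε) :
    ∃ y : E, ‖y‖ ≤ 1 ∧ B x f - τ < B y f ∧ 2 - ε < ‖x - y‖ :=
  h f _ (by linarith) ε hε

/-- if all points of the sphere near `x` are `Δ`-points, `x` is a super `Δ`-point -/
theorem near {B : E →ₗ[ℝ] F →ₗ[ℝ] ℝ} (h : Norming B) (x : E) (hx : ‖x‖ = 1) (r : ℝ) (hr : 0 < r)
    (H : ∀ x' : E, ‖x'‖ = 1 → ‖x' - x‖ < r → DeltaPt B x') : SuperDeltaPt B x :=
  fun U hU hxU ε hε => slab h.bound x hx r hr
    (fun f x' h1 h2 τ hτ ε hε => (H x' h1 h2).step f τ hτ ε hε) U hU hxU ε hε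

/-- if all points of the sphere in some slice given by `f` are `Δ`-points, `f` is a super
`Δ`-point -/
theorem across {B : E →ₗ[ℝ] F →ₗ[ℝ] ℝ} (h : Norming B) (f : F) (hf : ‖f‖ = 1) (r : ℝ) (hr : 0 < r)
    (H : ∀ x : E, ‖x‖ = 1 → 1 - r < B x f → DeltaPt B x) : SuperDeltaPt B.flip f := by
  refine fun U hU hfU ε hε => slab h.flip.bound f hf (r / 2) (by linarith)
    (fun v f' h1 h2 τ hτ ε hε => ?_) U hU hfU ε hε
  refine dual h.bound h.left h.right f' h1 (r / 2) (by linarith) (fun x hx hxf τ' hτ' ε' hε' => ?_)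
    v τ hτ ε hε
  refine (H x hx ?_).step f' τ' hτ' ε' hε'
  have h3 := h.bound x (f' - f)
  rw [map_sub, hx, one_mul] at h3
  linarith

theorem tfae {B : E →ₗ[ℝ] F →ₗ[ℝ] ℝ} (h : Norming B) :
    List.TFAE [∀ x : E, ‖x‖ = 1 → DeltaPt B x, ∀ x : E, ‖x‖ = 1 → SuperDeltaPt B x,
      ∀ f : F, ‖f‖ = 1 → DeltaPt B.flip f, ∀ f : F, ‖f‖ = 1 → SuperDeltaPt B.flip f] := by
  tfae_have 1 → 4 := fun H f hf => across h f hf 1 one_pos fun x hx _ => H x hx
  tfae_have 4 → 3 := fun H f hf => (H f hf).delta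
  tfae_have 3 → 2 := fun H x hx => across h.flip x hx 1 one_pos fun f hf _ => H f hf
  tfae_have 2 → 1 := fun H x hx => (H x hx).delta
  tfae_finish

end Pair

lemma norming_dual (X : Type u) [NormedAddCommGroup X] [NormedSpace ℝ X] :
    Norming (topDualPairing ℝ X).flip where
  bound := by
    intro x f
    have h1 := f.le_opNorm x
    rw [Real.norm_eq_abs] at h1
    rw [mul_comm]
    exact (le_abs_self _).trans h1
  left := by
    intro x c hc
    obtain ⟨f, h1, h2⟩ := exists_dual_vector'' ℝ x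
    refine ⟨f, h1, ?_⟩
    change c < f x
    rw [h2]
    simpa using hc
  right := by
    intro f c hc
    obtain ⟨y, hy1, hy2⟩ := f.exists_lt_apply_of_lt_opNorm hc
    rcases le_total 0 (f y) with h | h
    · refine ⟨y, hy1.le, ?_⟩
      change c < f y
      rwa [Real.norm_of_nonneg h] at hy2
    · refine ⟨-y, by rw [norm_neg]; exact hy1.le, ?_⟩
      change c < f (-y)
      rw [Real.norm_of_nonpos h] at hy2
      rwa [map_neg]

/-- **Local diametral duality.** First part (Q1): a real normed space `X`, in particular a real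
Banach space, has the DD2P if and only if its dual has the weak-star DD2P.

Second part: for every norming duality `B` of normed spaces `E`, `F` the following four properties
are equivalent: all norm-one points of `E` are `Δ`-points for the slices given by `F`; all norm-one
points of `E` are super `Δ`-points for `σ(E, F)`; the same two properties of `F`.

Third part, the local form: a norm-one point `x` of `E` is a super `Δ`-point for `σ(E, F)` as soon as
for some `r > 0` either all norm-one `x'` with `‖x' - x‖ < r` are `Δ`-points, or all norm-one `f` in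
`F` with `B x f > 1 - r` are `Δ`-points for the slices given by `E`. -/
theorem result :
    (∀ (X : Type u) [NormedAddCommGroup X] [NormedSpace ℝ X], DD2P X ↔ WStarDD2P X) ∧
    ∀ (E : Type v) (F : Type w) [NormedAddCommGroup E] [NormedSpace ℝ E] [NormedAddCommGroup F]
      [NormedSpace ℝ F] (B : E →ₗ[ℝ] F →ₗ[ℝ] ℝ), Norming B →
      List.TFAE [∀ x : E, ‖x‖ = 1 → DeltaPt B x, ∀ x : E, ‖x‖ = 1 → SuperDeltaPt B x,
        ∀ f : F, ‖f‖ = 1 → DeltaPt B.flip f, ∀ f : F, ‖f‖ = 1 → SuperDeltaPt B.flip f] ∧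
      ∀ x : E, ‖x‖ = 1 → ∀ r : ℝ, 0 < r →
        ((∀ x' : E, ‖x'‖ = 1 → ‖x' - x‖ < r → DeltaPt B x') → SuperDeltaPt B x) ∧
        ((∀ f : F, ‖f‖ = 1 → 1 - r < B x f → DeltaPt B.flip f) → SuperDeltaPt B x) := by
  refine ⟨fun X _ _ => ?_, fun E F _ _ _ _ B hB => ⟨tfae hB, fun x hx r hr =>
    ⟨near hB x hx r hr, fun H => across hB.flip x hx r hr H⟩⟩⟩
  have h := (tfae (norming_dual X)).out 1 3
  have e : (topDualPairing ℝ X).flip.flip = topDualPairing ℝ X := LinearMap.flip_flip _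
  rw [e] at h
  constructor
  · intro H U hU f hf hfU ε hε
    exact h.1 (fun x hx U hU hxU ε hε => H U hU x hx hxU ε hε) f hf U hU hfU ε hε
  · intro H U hU x hx hxU ε hε
    exact h.2 (fun f hf U hU hfU ε hε => H U hU f hf hfU ε hε) x hx U hU hxU ε hε

end Pool.Agent.Results.MP_914893_an.LocalDuality
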